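import Pool.Agent.X308.F.Defs
import Mathlib.AlgebraicGeometry.Morphisms.Proper
import Mathlib.RingTheory.RegularLocalRing.Defs
import Mathlib.RingTheory.KrullDimension.Basic
import Mathlib.Topology.KrullDimension
import Mathlib.GroupTheory.Index

/-!
# Proper regular arithmetic schemes: definitions
-/

set_option autoImplicit false

open CategoryTheory AlgebraicGeometry
open Pool.Agent.X308.F

universe v

namespace Pool.Agent.X308.H

/-- `X` is a proper regular arithmetic scheme. -/
structure IsProperRegular (X : Scheme.{0}) : Prop where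
  proper : ∃ f : X ⟶ Spec (CommRingCat.of ℤ), IsProper f
  regular : ∀ x : X, IsRegularLocalRing (X.presheaf.stalk x)

variable (M : CycleCohomology.{v})

/-- The exactness of the localization sequence at the open subscheme:
`H^i(X_et, ℤ^c(n)) → H^i(U_et, ℤ^c(n)) → H^(i+1)(Z_et, ℤ^c(n))`. -/
def LocalizationAtOpen (n : ℤ) : Prop :=
  ∀ (X Z : Scheme.{0}) (f : Z ⟶ X) (U : X.Opens), IsArithmetic X → IsClosedImmersion f →
    (U : Set X) = (Set.range f)ᶜ → ∀ i : ℤ,
      ∃ (b : M.H X n i →+ M.H U n i) (δ : M.H U n i →+ M.H Z n (i + 1)), Function.Exact b δ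

/-- There are restriction and transfer maps between the groups of `U` and `V` whose composition is
the multiplication by some `N ≠ 0` on the groups of `U`; for example for a finite flat morphism
`V → U` of degree `N`. -/
def HasTransfer (U V : Scheme.{0}) : Prop :=
  ∃ N : ℕ, N ≠ 0 ∧ ∀ n i : ℤ, n < 0 →
    ∃ (r : M.H U n i →+ M.H V n i) (t : M.H V n i →+ M.H U n i), ∀ a, t (r a) = N • a

/-- The theorem of de Jong on alterations: for a finitely generated domain `C` there are a
nonzero element `f` of `C`, a proper regular arithmetic scheme `Y` of the dimension of `C`, and a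
nonempty open subscheme `V` of `Y`, the complement of a closed subscheme `Z` of smaller dimension,
with a finite flat morphism from `V` to `Spec C[1/f]`. -/
def Alterations : Prop :=
  ∀ (C : Type) [CommRing C] [IsDomain C], (Int.castRingHom C).FiniteType →
    ∃ (f : C) (Y Z : Scheme.{0}) (j : Z ⟶ Y) (V : Y.Opens), f ≠ 0 ∧ IsProperRegular Y ∧
      IsClosedImmersion j ∧ (V : Set Y) = (Set.range j)ᶜ ∧
      topologicalKrullDim Z < ringKrullDim C ∧
      HasTransfer M (Spec (CommRingCat.of (Localization.Away f))) V

/-- The groups `H^i(X_et, ℤ^c(n))/N` are finite for `N ≠ 0`. -/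
def FiniteModulo (n : ℤ) : Prop :=
  ∀ X : Scheme.{0}, IsArithmetic X → ∀ (i : ℤ) (N : ℕ), N ≠ 0 →
    (nsmulAddMonoidHom (α := M.H X n i) N).range.FiniteIndex

/-- A consequence of the formula for the cohomology of the projective line `Y` over `X`: the group
`H^(i+2)(X_et, ℤ^c(n-1))` is a subgroup of `H^i(Y_et, ℤ^c(n))`, a direct summand. -/
def ProjectiveLine : Prop :=
  ∀ X : Scheme.{0}, IsProperRegular X → ∃ Y : Scheme.{0}, IsProperRegular Y ∧
    ∀ n i : ℤ, n < 0 → ∃ s : M.H X (n - 1) (i + 2) →+ M.H Y n i, Function.Injective s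

/-- Q1 in weight `n`: for all proper regular `X` the groups `H^i(X_et, ℤ^c(n))` with `i ≤ -2n + 1`
are finitely generated. -/
def ProperRegularInWeight (n : ℤ) : Prop :=
  ∀ X : Scheme.{0}, IsProperRegular X → ∀ i : ℤ, i ≤ -2 * n + 1 → AddGroup.FG (M.H X n i)

/-- Q1. -/
def ProperRegularFiniteGeneration : Prop := ∀ n : ℤ, n < 0 → ProperRegularInWeight M n

/-- Every finitely generated domain `C` has a nonzero element `f` such that all the groups
`H^i((Spec C[1/f])_et, ℤ^c(n))` are finitely generated. -/
def GenericInWeight (n : ℤ) : Prop :=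
  ∀ (C : Type) [CommRing C] [IsDomain C], (Int.castRingHom C).FiniteType →
    ∃ f : C, f ≠ 0 ∧ ∀ i : ℤ, AddGroup.FG (M.H (Spec (CommRingCat.of (Localization.Away f))) n i)

/-- Further known properties of the groups `H^i(X_et, ℤ^c(n))`. -/
structure FurtherProperties : Prop where
  localization : ∀ n : ℤ, n < 0 → LocalizationAtOpen M n
  finite : ∀ n : ℤ, n < 0 → FiniteModulo M n
  alterations : Alterations M
  line : ProjectiveLine M
  /-- for proper regular `X`, finite generation in the degrees `i ≤ -2n + 1` implies finite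
  generation in all degrees; it is listed as known in the problem -/
  allDegrees : ∀ n : ℤ, n < 0 → ∀ X : Scheme.{0}, IsProperRegular X →
    (∀ i : ℤ, i ≤ -2 * n + 1 → AddGroup.FG (M.H X n i)) → ∀ i : ℤ, AddGroup.FG (M.H X n i)

end Pool.Agent.X308.H
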