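import Pool.Agent.X308.H.Defs
import Pool.Agent.X308.F.Main
import Mathlib.RingTheory.KrullDimension.Polynomial
import Mathlib.RingTheory.KrullDimension.PID

/-!
# From proper regular arithmetic schemes to all arithmetic schemes
-/

set_option autoImplicit false

open CategoryTheory AlgebraicGeometry
open Pool.Agent.X308.F

universe v

namespace Pool.Agent.X308.H

/-! ### Groups -/

lemma fg_subgroup {A B : Type v} [AddCommGroup A] [AddCommGroup B] (f : A →+ B)
    (hf : Function.Injective f) (hB : AddGroup.FG B) : AddGroup.FG A := by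
  have h1 : Module.Finite ℤ B := Module.Finite.iff_addGroup_fg.2 hB
  have h2 : Module.Finite ℤ A := Module.Finite.of_injective f.toIntLinearMap hf
  exact Module.Finite.iff_addGroup_fg.1 h2

lemma fg_of_transfer {A B : Type v} [AddCommGroup A] [AddCommGroup B] (r : A →+ B) (t : B →+ A)
    (N : ℕ) (h : ∀ a, t (r a) = N • a) (hB : AddGroup.FG B)
    (hN : (nsmulAddMonoidHom (α := A) N).range.FiniteIndex) : AddGroup.FG A := by
  have h1 : AddGroup.FG r.range := fg_subgroup r.range.subtype Subtype.val_injective hB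
  let R := (nsmulAddMonoidHom (α := A) N).range
  have h2 : ∀ x : r.range, t x.1 ∈ R := by
    rintro ⟨_, a, rfl⟩
    exact ⟨a, (h a).symm⟩
  let g : r.range →+ R := (t.comp r.range.subtype).codRestrict R h2
  have hg : Function.Surjective g := by
    rintro ⟨_, a, rfl⟩
    refine ⟨⟨r a, a, rfl⟩, ?_⟩
    apply Subtype.ext
    exact h a
  have h3 : AddGroup.FG R := AddGroup.fg_of_surjective (f := g) hg
  have h4 : Finite (A ⧸ R) := AddSubgroup.finite_quotient_of_finiteIndex
  have h5 : AddGroup.FG (A ⧸ R) := inferInstance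
  refine fg_of_exact R.subtype (QuotientAddGroup.mk' R) ?_ h3 h5
  intro x
  rw [QuotientAddGroup.mk'_apply, QuotientAddGroup.eq_zero_iff]
  exact ⟨fun h => ⟨⟨x, h⟩, rfl⟩, fun ⟨y, hy⟩ => hy ▸ y.2⟩

/-! ### Localization -/

variable {M : CycleCohomology.{v}}

lemma good_whole (hK : KnownProperties M) {n : ℤ} (hn : n < 0) {X Z : Scheme.{0}} (f : Z ⟶ X)
    (U : X.Opens) (hX : IsArithmetic X) (hf : IsClosedImmersion f)
    (hU : (U : Set X) = (Set.range f)ᶜ) (h1 : Good M n Z) (h2 : Good M n U) : Good M n X := by
  intro i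
  obtain ⟨δ, a, b, -, h⟩ := hK.localization n hn X Z f U hX hf hU i
  exact fg_of_exact a b h (h1 i) (h2 i)

lemma good_open (hF : FurtherProperties M) {n : ℤ} (hn : n < 0) {X Z : Scheme.{0}} (f : Z ⟶ X)
    (U : X.Opens) (hX : IsArithmetic X) (hf : IsClosedImmersion f)
    (hU : (U : Set X) = (Set.range f)ᶜ) (h1 : Good M n X) (h2 : Good M n Z) : Good M n U := by
  intro i
  obtain ⟨b, δ, h⟩ := hF.localization n hn X Z f U hX hf hU i
  exact fg_of_exact b δ h (h1 i) (h2 (i + 1))

lemma isClosed_quotient {C : Type} [CommRing C] (I : Ideal C) :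
    IsClosedImmersion (Spec.map (CommRingCat.ofHom (Ideal.Quotient.mk I))) :=
  IsClosedImmersion.spec_of_surjective _ Ideal.Quotient.mk_surjective

/-- The open set `f ≠ 0`. -/
abbrev openSet {C : Type} [CommRing C] (f : C) : (Spec (CommRingCat.of C)).Opens :=
  PrimeSpectrum.basicOpen f

lemma compl_quotient {C : Type} [CommRing C] (f : C) :
    (openSet f : Set (Spec (CommRingCat.of C))) =
      (Set.range (Spec.map (CommRingCat.ofHom (Ideal.Quotient.mk (Ideal.span {f})))))ᶜ := by
  have h3 : Set.range (Spec.map (CommRingCat.ofHom (Ideal.Quotient.mk (Ideal.span {f})))) =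
      PrimeSpectrum.zeroLocus (RingHom.ker (Ideal.Quotient.mk (Ideal.span {f})) : Set C) :=
    range_comap_of_surjective _ _ Ideal.Quotient.mk_surjective
  rw [h3, Ideal.mk_ker, PrimeSpectrum.zeroLocus_span]
  exact PrimeSpectrum.basicOpen_eq_zeroLocus_compl f

lemma good_basicOpen (hK : KnownProperties M) {n : ℤ} {C : Type} [CommRing C] (f : C) :
    Good M n (Scheme.Opens.toScheme (X := Spec (CommRingCat.of C)) (PrimeSpectrum.basicOpen f)) ↔
      Good M n (Spec (CommRingCat.of (Localization.Away f))) :=
  ⟨fun h => Good.iso hK h (basicOpenIsoSpecAway (R := CommRingCat.of C) f),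
    fun h => Good.iso hK h (basicOpenIsoSpecAway (R := CommRingCat.of C) f).symm⟩

lemma ring_whole (hK : KnownProperties M) {n : ℤ} (hn : n < 0) {C : Type} [CommRing C]
    (hC : (Int.castRingHom C).FiniteType) (f : C)
    (h1 : Good M n (Spec (CommRingCat.of (C ⧸ Ideal.span {f}))))
    (h2 : Good M n (Spec (CommRingCat.of (Localization.Away f)))) :
    Good M n (Spec (CommRingCat.of C)) :=
  good_whole hK hn _ _ (arithmetic_spec C hC) (isClosed_quotient _) (compl_quotient f) h1
    ((good_basicOpen hK f).2 h2)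

lemma ring_open (hK : KnownProperties M) (hF : FurtherProperties M) {n : ℤ} (hn : n < 0)
    {C : Type} [CommRing C] (hC : (Int.castRingHom C).FiniteType) (f : C)
    (h1 : Good M n (Spec (CommRingCat.of C)))
    (h2 : Good M n (Spec (CommRingCat.of (C ⧸ Ideal.span {f})))) :
    Good M n (Spec (CommRingCat.of (Localization.Away f))) :=
  (good_basicOpen hK f).1 (good_open hF hn _ _ (arithmetic_spec C hC) (isClosed_quotient _)
    (compl_quotient f) h1 h2)

lemma good_of_ringEquiv (hK : KnownProperties M) {n : ℤ} {B C : Type} [CommRing B] [CommRing C]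
    (e : B ≃+* C) (h : Good M n (Spec (CommRingCat.of B))) :
    Good M n (Spec (CommRingCat.of C)) :=
  Good.iso hK h (Scheme.Spec.mapIso (e.symm.toCommRingCatIso).op)

lemma finiteType_quotient {C : Type} [CommRing C] (hC : (Int.castRingHom C).FiniteType)
    (I : Ideal C) : (Int.castRingHom (C ⧸ I)).FiniteType := by
  have h1 := (RingHom.FiniteType.of_surjective (Ideal.Quotient.mk I)
    Ideal.Quotient.mk_surjective).comp hC
  rwa [RingHom.ext_int ((Ideal.Quotient.mk I).comp (Int.castRingHom C)) (Int.castRingHom _)] at h1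

/-- If `a b = 0` then `C[1/a] = (C/b)[1/a]`. -/
lemma good_zeroDivisor (hK : KnownProperties M) {n : ℤ} {C : Type} [CommRing C] {a b : C}
    (hab : a * b = 0)
    (h : Good M n (Spec (CommRingCat.of
      (Localization.Away (Ideal.Quotient.mk (Ideal.span {b}) a))))) :
    Good M n (Spec (CommRingCat.of (Localization.Away a))) := by
  have h1 : Function.Injective (Localization.awayMap (Ideal.Quotient.mk (Ideal.span {b})) a) := by
    rw [Localization.awayMap_injective_iff]
    intro x hx
    rw [Ideal.Quotient.eq_zero_iff_mem, Ideal.mem_span_singleton] at hx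
    obtain ⟨y, rfl⟩ := hx
    exact ⟨1, by rw [pow_one, ← mul_assoc, hab, zero_mul]⟩
  have h2 : Function.Surjective
      (Localization.awayMap (Ideal.Quotient.mk (Ideal.span {b})) a) := by
    rw [Localization.awayMap_surjective_iff]
    intro x
    obtain ⟨y, rfl⟩ := Ideal.Quotient.mk_surjective x
    exact ⟨y, 0, by rw [pow_zero, one_mul]⟩
  exact good_of_ringEquiv hK (RingEquiv.ofBijective _ ⟨h1, h2⟩).symm h

lemma good_of_subsingleton (hK : KnownProperties M) (n : ℤ) (C : Type) [CommRing C]
    [Subsingleton C] : Good M n (Spec (CommRingCat.of C)) :=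
  good_empty hK n _ (inferInstanceAs (IsEmpty (PrimeSpectrum C)))

/-- The inductive step: if all proper quotients of `C` are good, and, if `C` is a domain, some
`C[1/f]`, then `C` is good. -/
lemma good_step (hK : KnownProperties M) (hF : FurtherProperties M) {n : ℤ} (hn : n < 0)
    {C : Type} [CommRing C] (hC : (Int.castRingHom C).FiniteType)
    (hgen : ∀ _ : IsDomain C, ∃ f : C, f ≠ 0 ∧
      Good M n (Spec (CommRingCat.of (Localization.Away f))))
    (h : ∀ J : Ideal C, J ≠ ⊥ → Good M n (Spec (CommRingCat.of (C ⧸ J)))) :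
    Good M n (Spec (CommRingCat.of C)) := by
  rcases subsingleton_or_nontrivial C with hs | hs
  · exact good_of_subsingleton hK n C
  · have hspan : ∀ {x : C}, x ≠ 0 → Ideal.span {x} ≠ ⊥ := fun {x} hx h =>
      hx (Ideal.span_singleton_eq_bot.1 h)
    by_cases hdom : NoZeroDivisors C
    · have hD : IsDomain C := IsDomain.mk
      obtain ⟨f, hf, h1⟩ := hgen hD
      exact ring_whole hK hn hC f (h _ (hspan hf)) h1
    · obtain ⟨a, b, hab, ha, hb⟩ : ∃ a b : C, a * b = 0 ∧ a ≠ 0 ∧ b ≠ 0 := by
        by_contra hcon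
        apply hdom
        refine ⟨fun {a b} hab => ?_⟩
        by_contra h0
        rw [not_or] at h0
        exact hcon ⟨a, b, hab, h0.1, h0.2⟩
      have e : ((C ⧸ Ideal.span {b}) ⧸ (Ideal.span {a}).map (Ideal.Quotient.mk (Ideal.span {b})))
          ≃+* C ⧸ Ideal.span {b} ⊔ Ideal.span {a} := DoubleQuot.quotQuotEquivQuotSup _ _
      have hmap : (Ideal.span {a}).map (Ideal.Quotient.mk (Ideal.span {b})) =
          Ideal.span {Ideal.Quotient.mk (Ideal.span {b}) a} := by
        rw [Ideal.map_span, Set.image_singleton]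
      rw [hmap] at e
      have h2 : Good M n (Spec (CommRingCat.of
          ((C ⧸ Ideal.span {b}) ⧸ Ideal.span {Ideal.Quotient.mk (Ideal.span {b}) a}))) := by
        refine good_of_ringEquiv hK e.symm (h _ fun h0 => hspan hb ?_)
        rw [eq_bot_iff] at h0 ⊢
        exact le_sup_left.trans h0
      have h3 := ring_open hK hF hn (finiteType_quotient hC _) (Ideal.Quotient.mk _ a)
        (h _ (hspan hb)) h2
      exact ring_whole hK hn hC a (h _ (hspan ha)) (good_zeroDivisor hK hab h3)

/-- Noetherian induction. -/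
lemma good_noetherian (hK : KnownProperties M) (hF : FurtherProperties M) {n : ℤ} (hn : n < 0)
    (B : Type) [CommRing B] (hB : (Int.castRingHom B).FiniteType)
    (hgen : ∀ (I : Ideal B) (_ : IsDomain (B ⧸ I)), ∃ f : B ⧸ I, f ≠ 0 ∧
      Good M n (Spec (CommRingCat.of (Localization.Away f)))) :
    Good M n (Spec (CommRingCat.of B)) := by
  have : IsNoetherianRing B := by
    have : Algebra.FiniteType ℤ B := RingHom.finiteType_algebraMap.1 hB
    exact Algebra.FiniteType.isNoetherianRing ℤ B
  have key : ∀ I : Ideal B, Good M n (Spec (CommRingCat.of (B ⧸ I))) := by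
    intro I
    induction I using IsNoetherian.induction with
    | hgt I ih =>
      refine good_step hK hF hn (finiteType_quotient hB I) (hgen I) fun J hJ => ?_
      have hle : I ≤ J.comap (Ideal.Quotient.mk I) := by
        intro x hx
        rw [Ideal.mem_comap, Ideal.Quotient.eq_zero_iff_mem.2 hx]
        exact J.zero_mem
      have hmap : (J.comap (Ideal.Quotient.mk I)).map (Ideal.Quotient.mk I) = J :=
        Ideal.map_comap_of_surjective _ Ideal.Quotient.mk_surjective J
      have e := DoubleQuot.quotQuotEquivQuotOfLE hle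
      rw [hmap] at e
      refine good_of_ringEquiv hK e.symm (ih _ (lt_of_le_of_ne hle fun h0 => hJ ?_))
      rw [← hmap, ← h0]
      exact Ideal.map_quotient_self I
  exact good_of_ringEquiv hK (RingEquiv.quotientBot B) (key ⊥)

/-! ### Gluing -/

lemma good_of_affine (hK : KnownProperties M) {n : ℤ} (hn : n < 0) (X : Scheme.{0})
    (hX : IsArithmetic X)
    (h : ∀ U : X.Opens, IsAffineOpen U → Good M n (Spec (CommRingCat.of Γ(X, U)))) :
    Good M n X := by
  obtain ⟨f, hf, hft, hfq⟩ := id hX
  have hc : CompactSpace X := QuasiCompact.compactSpace_of_compactSpace f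
  have hinf : ∀ U V : X.Opens, IsAffineOpen U → IsAffineOpen V → IsAffineOpen (U ⊓ V) :=
    fun U V hU hV => isAffineHom_diagonal_iff.mp
      (inferInstance : IsAffineHom (Limits.pullback.diagonal f)) ⊤
      (isAffineOpen_top _) U (by simp) V (by simp) hU hV
  obtain ⟨s, hs, hs'⟩ := (isCompact_and_isOpen_iff_finite_and_eq_biUnion_affineOpens
    (U := (Set.univ : Set X))).1 ⟨isCompact_univ, isOpen_univ⟩
  have h1 := good_union hK hn hX (fun U => IsAffineOpen U) hinf
    (fun U hU => Good.iso hK (h U hU) hU.isoSpec.symm) _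
    (hs.toFinset.toList.map fun U => U.1) rfl
    (by
      intro U hU
      obtain ⟨V, -, rfl⟩ := List.mem_map.1 hU
      exact V.2)
  have h2 : union (hs.toFinset.toList.map fun U => U.1) = (⊤ : X.Opens) := by
    rw [eq_top_iff]
    intro x _
    rw [mem_union]
    have hx : x ∈ (Set.univ : Set X) := trivial
    rw [hs', Set.mem_iUnion₂] at hx
    obtain ⟨V, hV, hx⟩ := hx
    exact ⟨V.1, List.mem_map.2 ⟨V, by simpa using hV, rfl⟩, hx⟩
  rw [h2] at h1
  exact Good.iso hK h1 X.topIso

lemma krullDim_affine (X : Scheme.{0}) (U : X.Opens) (hU : IsAffineOpen U) :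
    ringKrullDim Γ(X, U) ≤ topologicalKrullDim X := by
  rw [← PrimeSpectrum.topologicalKrullDim_eq_ringKrullDim Γ(X, U)]
  change topologicalKrullDim (Spec Γ(X, U)) ≤ _
  rw [← IsHomeomorph.topologicalKrullDim_eq _ hU.isoSpec.hom.homeomorph.isHomeomorph]
  exact topologicalKrullDim_subspace_le X U

lemma lt_of_lt_of_lt_succ {x y : WithBot ℕ∞} {d : ℕ} (h1 : x < y)
    (h2 : y < ((d + 1 : ℕ) : WithBot ℕ∞)) : x < (d : WithBot ℕ∞) := by
  have h3 : y ≤ (d : WithBot ℕ∞) := by
    induction y with
    | bot => exact bot_le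
    | coe y =>
      induction y with
      | top => exact absurd (WithBot.coe_lt_coe.1 h2) (by simp)
      | coe y =>
        norm_cast at h2 ⊢
        omega
  exact h1.trans_le h3

lemma isArithmetic_of_closed {X Z : Scheme.{0}} (f : Z ⟶ X) (hf : IsClosedImmersion f)
    (hX : IsArithmetic X) : IsArithmetic Z := by
  obtain ⟨g, h1, h2, h3⟩ := hX
  exact ⟨f ≫ g, inferInstance, inferInstance, inferInstance⟩

lemma IsProperRegular.isArithmetic {X : Scheme.{0}} (hX : IsProperRegular X) :
    IsArithmetic X := by
  obtain ⟨f, hf⟩ := hX.proper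
  exact ⟨f, inferInstance, inferInstance, inferInstance⟩

/-- The induction on the dimension. -/
lemma good_dim (hK : KnownProperties M) (hF : FurtherProperties M) {n : ℤ} (hn : n < 0)
    (h : ∀ X : Scheme.{0}, IsProperRegular X → Good M n X) (d : ℕ) :
    ∀ (B : Type) [CommRing B], (Int.castRingHom B).FiniteType →
      ringKrullDim B < (d : WithBot ℕ∞) → Good M n (Spec (CommRingCat.of B)) := by
  induction d with
  | zero =>
    intro B _ _ hB
    have : Subsingleton B := by
      by_contra hcon
      rw [not_subsingleton_iff_nontrivial] at hcon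
      have := ringKrullDim_nonneg_of_nontrivial (R := B)
      rw [Nat.cast_zero] at hB
      exact absurd hB (not_lt.2 this)
    exact good_of_subsingleton hK n B
  | succ d ih =>
    intro B _ hB hd
    refine good_noetherian hK hF hn B hB fun I hI => ?_
    have hC := finiteType_quotient hB I
    obtain ⟨f, Y, Z, j, V, hf, hY, hj, hV, hZ, N, hN, ht⟩ := hF.alterations (B ⧸ I) hC
    refine ⟨f, hf, ?_⟩
    have hZ' : topologicalKrullDim Z < (d : WithBot ℕ∞) :=
      lt_of_lt_of_lt_succ hZ ((ringKrullDim_quotient_le I).trans_lt hd)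
    have hYa := hY.isArithmetic
    have hZa := isArithmetic_of_closed j hj hYa
    have h1 : Good M n Z := by
      obtain ⟨g, -, hg, -⟩ := id hZa
      exact good_of_affine hK hn Z hZa fun U hU =>
        ih _ (finiteType_of_affineOpen g U hU) ((krullDim_affine Z U hU).trans_lt hZ')
    have h2 : Good M n V := good_open hF hn j V hYa hj hV (h Y hY) h1
    intro i
    obtain ⟨r, t, hrt⟩ := ht n i hn
    have hf' : (Int.castRingHom (Localization.Away f)).FiniteType := by
      have h3 : (algebraMap (B ⧸ I) (Localization.Away f)).FiniteType :=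
        RingHom.finiteType_algebraMap.2
          (IsLocalization.finiteType_of_monoid_fg (Submonoid.powers f) _)
      have h4 := h3.comp hC
      rwa [RingHom.ext_int ((algebraMap (B ⧸ I) (Localization.Away f)).comp
        (Int.castRingHom _)) (Int.castRingHom _)] at h4
    exact fg_of_transfer r t N hrt (h2 i) (hF.finite n hn _ (arithmetic_spec _ hf') i N hN)

lemma exists_dim_bound (B : Type) [CommRing B] (hB : (Int.castRingHom B).FiniteType) :
    ∃ d : ℕ, ringKrullDim B < (d : WithBot ℕ∞) := by
  obtain ⟨m, π, hπ⟩ := Algebra.FiniteType.iff_quotient_mvPolynomial''.1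
    (RingHom.finiteType_algebraMap.1 hB)
  have h1 : ringKrullDim B ≤ ringKrullDim (MvPolynomial (Fin m) ℤ) :=
    ringKrullDim_le_of_surjective π.toRingHom hπ
  rw [MvPolynomial.ringKrullDim_of_isNoetherianRing,
    IsPrincipalIdealRing.ringKrullDim_eq_one ℤ Int.not_isField, Nat.card_fin] at h1
  refine ⟨m + 2, h1.trans_lt ?_⟩
  have : (1 : WithBot ℕ∞) + (m : WithBot ℕ∞) = ((1 + m : ℕ) : WithBot ℕ∞) := by norm_cast
  rw [this]
  norm_cast
  omega

/-- **Fixed weight**: proper regular schemes suffice. -/
theorem inWeight_tfae (hK : KnownProperties M) (hF : FurtherProperties M) {n : ℤ} (hn : n < 0) :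
    List.TFAE [ProperRegularInWeight M n, FiniteGenerationInWeight M n, GenericInWeight M n,
      FiniteGenerationOfComplements M n] := by
  have hspec : (∀ (B : Type) [CommRing B], (Int.castRingHom B).FiniteType →
      Good M n (Spec (CommRingCat.of B))) → FiniteGenerationInWeight M n := by
    intro h X hX
    obtain ⟨g, -, hg, -⟩ := id hX
    exact good_of_affine hK hn X hX fun U hU => h _ (finiteType_of_affineOpen g U hU)
  tfae_have 1 → 2 := by
    intro h
    refine hspec fun B _ hB => ?_
    obtain ⟨d, hd⟩ := exists_dim_bound B hB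
    exact good_dim hK hF hn (fun X hX => hF.allDegrees n hn X hX (h X hX)) d B hB hd
  tfae_have 2 → 1 := fun h X hX i _ => h X hX.isArithmetic i
  tfae_have 2 → 3 := by
    intro h C _ _ hC
    refine ⟨1, one_ne_zero, fun i => h _ (arithmetic_spec _ ?_) i⟩
    have h3 : (algebraMap C (Localization.Away (1 : C))).FiniteType :=
      RingHom.finiteType_algebraMap.2
        (IsLocalization.finiteType_of_monoid_fg (Submonoid.powers (1 : C)) _)
    have h4 := h3.comp hC
    rwa [RingHom.ext_int ((algebraMap C (Localization.Away (1 : C))).comp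
      (Int.castRingHom _)) (Int.castRingHom _)] at h4
  tfae_have 3 → 2 := by
    intro h
    exact hspec fun B _ hB => good_noetherian hK hF hn B hB fun I _ =>
      h (B ⧸ I) (finiteType_quotient hB I)
  tfae_have 2 ↔ 4 := inWeight_iff hK hn
  tfae_finish

/-- **All weights.** -/
theorem all_tfae (hK : KnownProperties M) (hF : FurtherProperties M) :
    List.TFAE [ProperRegularFiniteGeneration M, ProperRegularInWeight M (-1),
      FiniteGeneration M, GenericInWeight M (-1), FiniteGenerationOfComplements M (-1)] := by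
  have h0 := inWeight_tfae hK hF (n := -1) (by norm_num)
  tfae_have 1 → 2 := fun h => h (-1) (by norm_num)
  tfae_have 2 → 1 := by
    intro h
    have key : ∀ r : ℕ, ProperRegularInWeight M (-1 - r) := by
      intro r
      induction r with
      | zero => simpa using h
      | succ r ih =>
        intro X hX i hi
        obtain ⟨i, rfl⟩ : ∃ i' : ℤ, i = i' + 2 := ⟨i - 2, by ring⟩
        obtain ⟨Y, hY, h1⟩ := hF.line X hX
        obtain ⟨s, hs⟩ := h1 (-1 - r) i (by omega)
        have e1 : (-1 : ℤ) - ((r + 1 : ℕ) : ℤ) = -1 - r - 1 := by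
          push_cast
          ring
        rw [e1] at hi ⊢
        exact fg_subgroup s hs (ih Y hY i (by omega))
    intro n hn
    obtain ⟨r, rfl⟩ : ∃ r : ℕ, n = -1 - r := ⟨(-1 - n).toNat, by omega⟩
    exact key r
  tfae_have 3 ↔ 5 := fg_iff hK
  tfae_have 2 ↔ 5 := h0.out 0 3
  tfae_have 4 ↔ 5 := h0.out 2 3
  tfae_finish

end Pool.Agent.X308.H
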